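import Pool.Agent.U441.BS.Short
import Pool.Agent.Results.MP_6bc78b_nt.SimpleZerosBohrSets

/-!
# Isolated simple zeros of Hardy's function in Bohr sets, unconditionally

No hypothesis is assumed. For every almost periodic weight `φ ≥ 0` (arbitrary real frequencies) with
mean value `M`, the sum of `φ` over the isolated simple zeros of `Z` in `(T, T + H]` is at least
`((2 - c) M - ε) N(T, T + H)`, uniformly for `η T ≤ H ≤ T`, where `c = 1/2 + cot(1/√2)/√2 ≤ 1.3275`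
and `N(T, T + H)` counts all nontrivial zeros of zeta with multiplicity. Here a zero `t` is isolated
if every other nontrivial zero of zeta, on or off the critical line, has distance at least
`δ / log t` from `1/2 + it`, with `δ = δ(φ, η, ε) > 0`. In particular every Bohr set (and every open
set of a torus along a line) gets at least `67.25 %` of its fair share of the zeros as isolated
simple zeros of `Z`.
-/

set_option autoImplicit false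

open Filter Topology Complex MeasureTheory

namespace Pool.Agent.Results.MP_6bc78b_nt.BohrSetsUnconditional

open Pool.Agent.Results.MP_6bc78b_nt.SimpleZerosBohrSets

/-- the isolated simple zeros of `Z` in `(T₁, T₂]`: the simple real zeros `t` of `Z` such that every
other nontrivial zero of zeta has distance at least `δ / log t` from `1/2 + it` -/
def isoZeros (δ T₁ T₂ : ℝ) : Set ℝ := {t : ℝ | T₁ < t ∧ t ≤ T₂ ∧ Z t = 0 ∧ deriv Z t ≠ 0 ∧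
  ∀ s : ℂ, riemannZeta s = 0 → 0 < s.re → s.re < 1 → s ≠ 1 / 2 + I * t →
    δ / Real.log t ≤ ‖s - (1 / 2 + I * t)‖}

/-- the constant `c = 1/2 + cot(1/√2)/√2 = 1.3274992…` -/
noncomputable def c₁ : ℝ := 1 / 2 + Real.cot (1 / Real.sqrt 2) / Real.sqrt 2

lemma isoZeros_finite (δ : ℝ) {T₁ T₂ : ℝ} (h : 0 < T₁) : (isoZeros δ T₁ T₂).Finite :=
  (simpleZeros_finite T₁ T₂ h).subset fun _ ht => ⟨ht.1, ht.2.1, ht.2.2.1, ht.2.2.2.1⟩

lemma pt_of_re {s : ℂ} (h : s.re = 1 / 2) : (1 / 2 + I * s.im : ℂ) = s := by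
  apply Complex.ext
  · simp [h]
  · simp

/-- from the zeros of zeta to the zeros of `Z` -/
lemma sum_le {φ : ℝ → ℝ} (h0 : ∀ t, 0 ≤ φ t) {δ T₁ T₂ : ℝ} (hT : 0 < T₁) (J : Finset ℂ)
    (hJ : ∀ s ∈ J, s ∈ H370.zset riemannZeta T₁ T₂ ∧ Pool.Agent.U441.BS.Iso δ s) :
    ∑ s ∈ J, φ s.im ≤ ∑ᶠ t ∈ isoZeros δ T₁ T₂, φ t := by
  classical
  have hfin := isoZeros_finite δ (T₂ := T₂) hT
  rw [finsum_mem_eq_finite_toFinset_sum _ hfin, ← Finset.sum_image (f := φ) (g := fun s : ℂ => s.im)]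
  · refine Finset.sum_le_sum_of_subset_of_nonneg ?_ fun t _ _ => h0 t
    intro t ht
    rw [Finset.mem_image] at ht
    obtain ⟨s, hs, rfl⟩ := ht
    obtain ⟨⟨h1, h2, h3, h4, h5⟩, h6, h7, h8⟩ := hJ s hs
    have e := pt_of_re h6
    rw [Set.Finite.mem_toFinset]
    refine ⟨h3, h4, ?_, ?_, ?_⟩
    · rw [Z_zero_iff, e]; exact h5
    · apply simple_of_order
      · rw [e]; exact h5
      · rw [e]; exact h7
    · rw [e]; exact h8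
  · intro s hs s' hs' h
    have e1 := (hJ s hs).2.1
    have e2 := (hJ s' hs').2.1
    exact Complex.ext (e1.trans e2.symm) h

theorem weights {φ : ℝ → ℝ} {M : ℝ} (hφ : AlmostPeriodic φ) (h0 : ∀ t, 0 ≤ φ t) (hM : HasMean φ M)
    {η ε : ℝ} (hη : 0 < η) (hε : 0 < ε) :
    ∃ δ : ℝ, 0 < δ ∧ ∃ T₀ : ℝ, 1 ≤ T₀ ∧ ∀ T : ℝ, T₀ ≤ T → ∀ H : ℝ, η * T ≤ H → H ≤ T →
      ((2 - c₁) * M - ε) * (N T (T + H) : ℝ) ≤ ∑ᶠ t ∈ isoZeros δ T (T + H), φ t := by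
  obtain ⟨δ, hδ, T0, hT0, h⟩ := Pool.Agent.U441.BS.shortAP (φ := φ) hφ h0 hM hη hε
  refine ⟨δ, hδ, T0, by linarith, fun T hT H hH1 hH2 => ?_⟩
  obtain ⟨J, hJ, hJ2⟩ := h T hT H hH1 hH2
  rw [N_eq]
  exact hJ2.trans (sum_le h0 (by linarith) J hJ)

theorem opens {k : ℕ} {α : Fin k → ℝ}
    (hα : ∀ n : Fin k → ℤ, ∑ j, (n j : ℝ) * α j = 0 → n = 0) {U : Set (UnitAddTorus (Fin k))}
    (hU : IsOpen U) {η ε : ℝ} (hη : 0 < η) (hε : 0 < ε) :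
    ∃ δ : ℝ, 0 < δ ∧ ∃ T₀ : ℝ, 1 ≤ T₀ ∧ ∀ T : ℝ, T₀ ≤ T → ∀ H : ℝ, η * T ≤ H → H ≤ T →
      ((2 - c₁) * (haar k U).toReal - ε) * (N T (T + H) : ℝ) ≤
        ({t ∈ isoZeros δ T (T + H) | pt α t ∈ U}.ncard : ℝ) := by
  obtain ⟨f, hf0, hf1, hfU, hfM⟩ := TH803TW.torus_lower hU
    (ε := ε / (2 * (|2 - c₁| + 1))) (by positivity)
  have hAPm := TH803TW.APm_torus hα f
  have hAP : AlmostPeriodic (fun t => f (pt α t)) := fun e he => by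
    obtain ⟨S, c, -, h, -⟩ := hAPm e he
    exact ⟨S, c, h⟩
  have hmean : HasMean (fun t => f (pt α t)) (∫ x, f x ∂(TH803TW.haarT k)) :=
    Pool.Agent.U441.BS.mean_of_APm hAPm
  obtain ⟨δ, hδ, T₀, h1, hT₀⟩ := weights hAP (fun t => hf0 _) hmean hη (ε := ε / 2) (by positivity)
  refine ⟨δ, hδ, T₀, h1, fun T hT H hH1 hH2 => ?_⟩
  have hM0 : 0 ≤ (haar k U).toReal := ENNReal.toReal_nonneg
  have hN0 : (0 : ℝ) ≤ N T (T + H) := Nat.cast_nonneg _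
  have c1 := count_ge (α := α) (isoZeros_finite δ (T₂ := T + H) (by linarith : 0 < T)) hf1 hfU
  exact arith (Nat.cast_nonneg _) hN0 hM0 hε (fun _ => (hT₀ T hT H hH1 hH2).trans c1) hfM

theorem boxes {k : ℕ} {α : Fin k → ℝ}
    (hα : ∀ n : Fin k → ℤ, ∑ j, (n j : ℝ) * α j = 0 → n = 0) (β r : Fin k → ℝ)
    (hr : ∀ j, 0 < r j ∧ r j ≤ 1 / 2) {η ε : ℝ} (hη : 0 < η) (hε : 0 < ε) :
    ∃ δ : ℝ, 0 < δ ∧ ∃ T₀ : ℝ, 1 ≤ T₀ ∧ ∀ T : ℝ, T₀ ≤ T → ∀ H : ℝ, η * T ≤ H → H ≤ T →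
      ((2 - c₁) * ∏ j, (2 * r j) - ε) * (N T (T + H) : ℝ) ≤
        ({t ∈ isoZeros δ T (T + H) | ∀ j, distInt (α j * t - β j) < r j}.ncard : ℝ) := by
  obtain ⟨δ, hδ, T₀, h1, hT₀⟩ := opens hα
    (TH803TW.box_open (fun j => ((β j : ℝ) : UnitAddCircle)) r) hη hε
  have hv : ∏ j, (2 * r j) ≤ (haar k (Set.univ.pi fun j =>
    Metric.ball ((β j : ℝ) : UnitAddCircle) (r j))).toReal :=
    TH803TW.box_vol (fun j => ((β j : ℝ) : UnitAddCircle)) (fun j => (hr j).1) (fun j => (hr j).2)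
  refine ⟨δ, hδ, T₀, h1, fun T hT H hH1 hH2 => ?_⟩
  have a1 := hT₀ T hT H hH1 hH2
  simp only [pt_box] at a1
  have hN0 : (0 : ℝ) ≤ N T (T + H) := Nat.cast_nonneg _
  have hc : 0 ≤ 2 - c₁ := by
    have := Pool.Agent.W354.ZP.cMTinv_sharp
    unfold H370.cMTinv at this
    unfold c₁
    linarith
  refine le_trans ?_ a1
  gcongr

/-- **isolated simple zeros of Hardy's function in Bohr sets** (no hypothesis) -/
theorem result :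
    -- almost periodic weights
    (∀ (φ : ℝ → ℝ) (M : ℝ), AlmostPeriodic φ → (∀ t, 0 ≤ φ t) → HasMean φ M →
      ∀ η ε : ℝ, 0 < η → 0 < ε →
      ∃ δ : ℝ, 0 < δ ∧ ∃ T₀ : ℝ, 1 ≤ T₀ ∧ ∀ T : ℝ, T₀ ≤ T → ∀ H : ℝ, η * T ≤ H → H ≤ T →
        ((2 - c₁) * M - ε) * (N T (T + H) : ℝ) ≤ ∑ᶠ t ∈ isoZeros δ T (T + H), φ t) ∧
    -- open sets of tori
    (∀ (k : ℕ) (α : Fin k → ℝ), (∀ n : Fin k → ℤ, ∑ j, (n j : ℝ) * α j = 0 → n = 0) →
      ∀ U : Set (UnitAddTorus (Fin k)), IsOpen U → ∀ η ε : ℝ, 0 < η → 0 < ε →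
      ∃ δ : ℝ, 0 < δ ∧ ∃ T₀ : ℝ, 1 ≤ T₀ ∧ ∀ T : ℝ, T₀ ≤ T → ∀ H : ℝ, η * T ≤ H → H ≤ T →
        ((2 - c₁) * (haar k U).toReal - ε) * (N T (T + H) : ℝ) ≤
          ({t ∈ isoZeros δ T (T + H) | pt α t ∈ U}.ncard : ℝ)) ∧
    -- Bohr sets
    (∀ (k : ℕ) (α : Fin k → ℝ), (∀ n : Fin k → ℤ, ∑ j, (n j : ℝ) * α j = 0 → n = 0) →
      ∀ β r : Fin k → ℝ, (∀ j, 0 < r j ∧ r j ≤ 1 / 2) → ∀ η ε : ℝ, 0 < η → 0 < ε →
      ∃ δ : ℝ, 0 < δ ∧ ∃ T₀ : ℝ, 1 ≤ T₀ ∧ ∀ T : ℝ, T₀ ≤ T → ∀ H : ℝ, η * T ≤ H → H ≤ T →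
        ((2 - c₁) * ∏ j, (2 * r j) - ε) * (N T (T + H) : ℝ) ≤
          ({t ∈ isoZeros δ T (T + H) | ∀ j, distInt (α j * t - β j) < r j}.ncard : ℝ)) ∧
    -- the constant; the sets that are counted are finite
    c₁ ≤ 1.3275 ∧ ∀ δ T₁ T₂ : ℝ, 0 < T₁ → (isoZeros δ T₁ T₂).Finite := by
  refine ⟨fun φ M hφ h0 hM η ε hη hε => weights hφ h0 hM hη hε,
    fun k α hα U hU η ε hη hε => opens hα hU hη hε,
    fun k α hα β r hr η ε hη hε => boxes hα β r hr hη hε, ?_, fun δ T₁ T₂ h => isoZeros_finite δ h⟩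
  have h := Pool.Agent.W354.ZP.cMTinv_sharp
  unfold H370.cMTinv at h
  unfold c₁
  exact h

end Pool.Agent.Results.MP_6bc78b_nt.BohrSetsUnconditional
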