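import Pool.Agent.U196.UM.Quant
import Pool.Agent.Q97.UM.IsoF

set_option autoImplicit false

/-!
# Quantitative simplicity of the zeros of Hardy's function, relative to every Dirichlet polynomial

Write `r(T) = √(log T / log log T)` and `A = 3/2 - cot(1/√2)/√2 = 0.6725…`. Unconditionally, for every `ε > 0` there are
`d, θ, K > 0` such that for all large `T`, all `N ≤ T ^ θ` and ALL complex numbers `b_1, ..., b_N`, with
`B(t) = ∑ b_n n^(-1/2-it)`: the zeros `1/2 + it` of zeta on the critical line with `T < t ≤ 2T` which are simple, have distance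
at least `d / log T` from every other nontrivial zero and satisfy `exp(-K r(T)) ≤ |ζ'(1/2+it)| ≤ exp(K r(T))` carry at least the
share `A - ε` of the sum of `m(ρ) |B(γ)|²` over all nontrivial zeros `ρ = β + iγ` with `T < γ ≤ 2T`.

The function `r(T)` is sharp on both sides: for every `θ' > 0` there is `c > 0` such that for all large `T` there are Dirichlet
polynomials of length at most `T ^ θ'` for which such zeros with `|ζ'| ≥ exp(c r(T))`, and others for which such zeros with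
`|ζ'| ≤ exp(-c r(T))`, carry at least the share `A - ε`.
-/

namespace Pool.Agent.Results.MP_6bc78b_nt.QuantitativeSimplicity

open Filter Topology MeasureTheory Complex

noncomputable section

/-- the Dirichlet polynomial with the coefficients `b_1, ..., b_N` on the critical line -/
def B (N : ℕ) (b : ℕ → ℂ) (t : ℝ) : ℂ := ∑ n ∈ Finset.Icc 1 N, b n * (n : ℂ) ^ (-(1 / 2 + t * I))

/-- the nontrivial zeros of zeta with ordinate in `(T, 2T]` -/
def zeros (T : ℝ) : Set ℂ := {s : ℂ | riemannZeta s = 0 ∧ 0 < s.re ∧ s.re < 1 ∧ T < s.im ∧ s.im ≤ 2 * T}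

/-- the multiplicity of a zero -/
def mult (s : ℂ) : ℕ := analyticOrderNatAt riemannZeta s

/-- the simple zeros on the critical line with ordinate in `(T, 2T]` at distance at least `d / log T` from every other nontrivial
zero -/
def good (d T : ℝ) : Set ℂ := {s : ℂ | s ∈ zeros T ∧ s.re = 1 / 2 ∧ deriv riemannZeta s ≠ 0 ∧
  ∀ ρ : ℂ, riemannZeta ρ = 0 → 0 < ρ.re → ρ.re < 1 → ρ ≠ s → d / Real.log T ≤ ‖ρ - s‖}

/-- `r(T) = √(log T / log log T)` -/
def r (T : ℝ) : ℝ := Real.sqrt (Real.log T / Real.log (Real.log T))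

/-- the weight of all zeros -/
def total (T : ℝ) (N : ℕ) (b : ℕ → ℂ) : ℝ := ∑ᶠ s ∈ zeros T, (mult s : ℝ) * ‖B N b s.im‖ ^ 2

/-- the constant `A = 3/2 - cot(1/√2)/√2 = 0.6725…` of Montgomery and Taylor -/
def A : ℝ := 3 / 2 - Real.cot (1 / Real.sqrt 2) / Real.sqrt 2

lemma A_eq : A = 2 - H370.cMTinv := by
  unfold A H370.cMTinv
  ring

lemma zeros_eq (T : ℝ) : zeros T = H370.zset riemannZeta T (2 * T) := by
  ext s
  simp only [zeros, H370.zset, Set.mem_ofPred_eq]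
  tauto

lemma total_eq {T : ℝ} (hT : 1 ≤ T) (N : ℕ) (b : ℕ → ℂ) : total T N b =
    ∑ s ∈ H370.Zf riemannZeta T (2 * T), (Pool.Agent.Q97.UM.mz s : ℝ) * ‖Pool.Agent.Q97.UM.dp N b s.im‖ ^ 2 := by
  unfold total
  rw [zeros_eq, H370.finsum_Zf H370.good_zeta hT]
  rfl

lemma good_eq {d T : ℝ} (hT : 16 ≤ T) (hd : d ≤ 1) : good d T = (Pool.Agent.Q97.UM.ZI d T : Set ℂ) := by
  ext s
  rw [SetLike.mem_coe, Pool.Agent.Q97.UM.mem_ZI_iff hT hd]
  simp only [good, zeros, Set.mem_ofPred_eq]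
  constructor
  · rintro ⟨⟨h1, h2, h3, h4, h5⟩, h6, h7, h8⟩
    exact ⟨h6, h4, h5, h1, h7, h8⟩
  · rintro ⟨h6, h4, h5, h1, h7, h8⟩
    exact ⟨⟨h1, by rw [h6]; norm_num, by rw [h6]; norm_num, h4, h5⟩, h6, h7, h8⟩

open Classical in
lemma sum_eq {d T : ℝ} (hT : 16 ≤ T) (hd : d ≤ 1) (P : ℂ → Prop) (f : ℂ → ℝ) :
    ∑ᶠ s ∈ {s : ℂ | s ∈ good d T ∧ P s}, f s = ∑ s ∈ (Pool.Agent.Q97.UM.ZI d T).filter P, f s := by
  have h : {s : ℂ | s ∈ good d T ∧ P s} = ((Pool.Agent.Q97.UM.ZI d T).filter P : Set ℂ) := by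
    ext s
    rw [good_eq hT hd, Finset.coe_filter]
    rfl
  rw [h, finsum_mem_coe_finset]

/-- **Quantitative simplicity relative to every Dirichlet polynomial, with its sharpness.** -/
theorem result : ∀ ε : ℝ, 0 < ε → ∃ d θ K : ℝ, 0 < d ∧ 0 < θ ∧ 0 < K ∧
    (∃ T₀ : ℝ, ∀ T : ℝ, T₀ ≤ T → ∀ N : ℕ, (N : ℝ) ≤ T ^ θ → ∀ b : ℕ → ℂ,
      (A - ε) * total T N b ≤
        ∑ᶠ s ∈ {s : ℂ | s ∈ good d T ∧ (Real.exp (-(K * r T)) ≤ ‖deriv riemannZeta s‖ ∧
          ‖deriv riemannZeta s‖ ≤ Real.exp (K * r T))}, ‖B N b s.im‖ ^ 2) ∧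
    (∀ θ' : ℝ, 0 < θ' → ∃ c T₀ : ℝ, 0 < c ∧ ∀ T : ℝ, T₀ ≤ T →
      (∃ (N : ℕ) (b : ℕ → ℂ), (N : ℝ) ≤ T ^ θ' ∧ 0 < total T N b ∧ (A - ε) * total T N b ≤
        ∑ᶠ s ∈ {s : ℂ | s ∈ good d T ∧ Real.exp (c * r T) ≤ ‖deriv riemannZeta s‖}, ‖B N b s.im‖ ^ 2) ∧
      (∃ (N : ℕ) (b : ℕ → ℂ), (N : ℝ) ≤ T ^ θ' ∧ 0 < total T N b ∧ (A - ε) * total T N b ≤
        ∑ᶠ s ∈ {s : ℂ | s ∈ good d T ∧ ‖deriv riemannZeta s‖ ≤ Real.exp (-(c * r T))}, ‖B N b s.im‖ ^ 2)) := by
  classical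
  intro ε hε
  obtain ⟨d, θ₁, hd, hd1, hθ₁, -, hS⟩ := Pool.Agent.Q97.UM.b_SAMPI (ε / 4) (by positivity)
  obtain ⟨θ₂, K, hθ₂, -, hK, hQ⟩ := Pool.Agent.U196.UM.quant (by positivity : 0 < ε / 4) hθ₁ hS hd
  have hpi := Real.pi_pos
  have hpi4 := Real.pi_lt_four
  set ε₂ : ℝ := min (1 / 100) (ε / (4 * Real.pi * (|A| + 1))) with hε₂
  have hε₂0 : 0 < ε₂ := by positivity
  obtain ⟨θ₃, hθ₃, -, hS3⟩ := Pool.Agent.Q97.UM.b_SAMP ε₂ hε₂0
  -- comparison of the total weight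
  have key : ∀ {T : ℝ} {N : ℕ} {b : ℕ → ℂ} {S : ℝ}, 16 ≤ T →
      |(∑ s ∈ H370.Zf riemannZeta T (2 * T), (Pool.Agent.Q97.UM.mz s : ℝ) * ‖Pool.Agent.Q97.UM.dp N b s.im‖ ^ 2) -
        Real.log T / (2 * Real.pi) * (T * Pool.Agent.Q97.UM.N2 N b)| ≤ ε₂ * Real.log T * (T * Pool.Agent.Q97.UM.N2 N b) →
      0 ≤ S → (2 - H370.cMTinv - 2 * (ε / 4)) * (Real.log T / (2 * Real.pi)) * (T * Pool.Agent.Q97.UM.N2 N b) ≤ S →
      (A - ε) * total T N b ≤ S := by
    intro T N b S hT h1 hS0 h2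
    rw [← A_eq] at h2
    have hN2 : 0 ≤ Pool.Agent.Q97.UM.N2 N b := Pool.Agent.Q98.UM.N2_nonneg _ _
    have htot : 0 ≤ total T N b := by
      rw [total_eq (by linarith)]
      exact Finset.sum_nonneg fun s _ => by positivity
    rw [← total_eq (by linarith)] at h1
    have h3 := (abs_le.1 h1).2
    rcases le_or_gt (A - ε) 0 with hA | hA
    · nlinarith
    · have hL : 0 < Real.log T := Real.log_pos (by linarith)
      set W := Real.log T / (2 * Real.pi) * (T * Pool.Agent.Q97.UM.N2 N b) with hW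
      have hW0 : 0 ≤ W := by positivity
      have h4 : total T N b ≤ (1 + 2 * Real.pi * ε₂) * W := by
        have : ε₂ * Real.log T * (T * Pool.Agent.Q97.UM.N2 N b) = 2 * Real.pi * ε₂ * W := by
          rw [hW]; field_simp
        linarith
      have h5 : (A - ε) * (2 * Real.pi * ε₂) ≤ ε / 2 := by
        have a1 : ε₂ ≤ ε / (4 * Real.pi * (|A| + 1)) := min_le_right _ _
        have a2 : A ≤ |A| := le_abs_self A
        have a3 : 0 ≤ |A| := abs_nonneg A
        calc (A - ε) * (2 * Real.pi * ε₂) ≤ (|A| + 1) * (2 * Real.pi * (ε / (4 * Real.pi * (|A| + 1)))) := by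
              refine mul_le_mul (by linarith) ?_ (by positivity) (by positivity)
              exact mul_le_mul_of_nonneg_left a1 (by positivity)
          _ = ε / 2 := by field_simp; norm_num
      calc (A - ε) * total T N b ≤ (A - ε) * ((1 + 2 * Real.pi * ε₂) * W) := mul_le_mul_of_nonneg_left h4 hA.le
        _ = (A - ε) * W + (A - ε) * (2 * Real.pi * ε₂) * W := by ring
        _ ≤ (A - ε) * W + ε / 2 * W := by
          have := mul_le_mul_of_nonneg_right h5 hW0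
          linarith
        _ = (A - 2 * (ε / 4)) * (Real.log T / (2 * Real.pi)) * (T * Pool.Agent.Q97.UM.N2 N b) := by rw [hW]; ring
        _ ≤ S := h2
  refine ⟨d, min θ₂ θ₃, K, hd, by positivity, hK, ?_, ?_⟩
  · have hev := (hQ.and hS3).and (eventually_ge_atTop (16 : ℝ))
    rw [Filter.eventually_atTop] at hev
    obtain ⟨T₀, hT₀⟩ := hev
    refine ⟨T₀, fun T hT N hN b => ?_⟩
    obtain ⟨⟨h1, h2⟩, hT16⟩ := hT₀ T hT
    have hle : ∀ {a c : ℝ}, a ≤ c → T ^ a ≤ T ^ c := fun h => Real.rpow_le_rpow_of_exponent_le (by linarith) h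
    have h3 := h1 N (hN.trans (hle (min_le_left _ _))) b
    have h4 := (h2 N (hN.trans (hle (min_le_right _ _))) b).2.2
    rw [sum_eq hT16 hd1]
    refine key hT16 h4 (Finset.sum_nonneg fun s _ => by positivity) (h3.trans (le_of_eq ?_))
    refine Finset.sum_congr ?_ fun s _ => rfl
    ext s
    simp only [Finset.mem_filter]
    refine and_congr_right fun hs => ?_
    have hne : deriv riemannZeta s ≠ 0 := ((Pool.Agent.Q97.UM.mem_ZI_iff hT16 hd1).1 hs).2.2.2.2.1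
    have hpos : 0 < ‖deriv riemannZeta s‖ := norm_pos_iff.2 hne
    rw [abs_le, Real.le_log_iff_exp_le hpos, Real.log_le_iff_le_exp hpos]
    rfl
  · intro θ' hθ'
    obtain ⟨c, hc, hX⟩ := Pool.Agent.U196.UM.quant_sharp (by positivity : 0 < ε / 4) hθ₁ hS hd
      (θ := min θ' θ₃) (by positivity)
    have hev := (hX.and hS3).and (eventually_ge_atTop (16 : ℝ))
    rw [Filter.eventually_atTop] at hev
    obtain ⟨T₀, hT₀⟩ := hev
    refine ⟨c, T₀, hc, fun T hT => ?_⟩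
    obtain ⟨⟨h1, h2⟩, hT16⟩ := hT₀ T hT
    have hle : ∀ {a c : ℝ}, a ≤ c → T ^ a ≤ T ^ c := fun h => Real.rpow_le_rpow_of_exponent_le (by linarith) h
    have hL : 0 < Real.log T := Real.log_pos (by linarith)
    have hpos : ∀ {N : ℕ} {b : ℕ → ℂ}, 0 < Pool.Agent.Q97.UM.N2 N b →
        |(∑ s ∈ H370.Zf riemannZeta T (2 * T), (Pool.Agent.Q97.UM.mz s : ℝ) * ‖Pool.Agent.Q97.UM.dp N b s.im‖ ^ 2) -
          Real.log T / (2 * Real.pi) * (T * Pool.Agent.Q97.UM.N2 N b)| ≤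
            ε₂ * Real.log T * (T * Pool.Agent.Q97.UM.N2 N b) → 0 < total T N b := by
      intro N b hN h
      rw [← total_eq (by linarith)] at h
      have h3 := (abs_le.1 h).1
      have h4 : ε₂ ≤ 1 / 100 := min_le_left _ _
      have h5 : 1 / 100 * Real.log T < Real.log T / (2 * Real.pi) := by
        rw [lt_div_iff₀ (by positivity)]
        nlinarith
      have h6 : 0 < T * Pool.Agent.Q97.UM.N2 N b := by
        have : 0 < T := by linarith
        positivity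
      have h7 := mul_lt_mul_of_pos_right h5 h6
      have h8 := mul_le_mul_of_nonneg_right (mul_le_mul_of_nonneg_right h4 hL.le) h6.le
      linarith
    constructor
    · obtain ⟨N, b, hN, hN2, hb⟩ := h1 1 (Or.inl rfl)
      have h4 := (h2 N (hN.trans (hle (min_le_right _ _))) b).2.2
      refine ⟨N, b, hN.trans (hle (min_le_left _ _)), hpos hN2 h4, ?_⟩
      rw [sum_eq hT16 hd1]
      refine key hT16 h4 (Finset.sum_nonneg fun s _ => by positivity) (hb.trans (le_of_eq ?_))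
      refine Finset.sum_congr ?_ fun s _ => rfl
      ext s
      simp only [Finset.mem_filter]
      refine and_congr_right fun hs => ?_
      have hne : deriv riemannZeta s ≠ 0 := ((Pool.Agent.Q97.UM.mem_ZI_iff hT16 hd1).1 hs).2.2.2.2.1
      have hpos : 0 < ‖deriv riemannZeta s‖ := norm_pos_iff.2 hne
      rw [one_mul, Real.le_log_iff_exp_le hpos]
      rfl
    · obtain ⟨N, b, hN, hN2, hb⟩ := h1 (-1) (Or.inr rfl)
      have h4 := (h2 N (hN.trans (hle (min_le_right _ _))) b).2.2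
      refine ⟨N, b, hN.trans (hle (min_le_left _ _)), hpos hN2 h4, ?_⟩
      rw [sum_eq hT16 hd1]
      refine key hT16 h4 (Finset.sum_nonneg fun s _ => by positivity) (hb.trans (le_of_eq ?_))
      refine Finset.sum_congr ?_ fun s _ => rfl
      ext s
      simp only [Finset.mem_filter]
      refine and_congr_right fun hs => ?_
      have hne : deriv riemannZeta s ≠ 0 := ((Pool.Agent.Q97.UM.mem_ZI_iff hT16 hd1).1 hs).2.2.2.2.1
      have hpos : 0 < ‖deriv riemannZeta s‖ := norm_pos_iff.2 hne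
      rw [neg_one_mul, le_neg, Real.log_le_iff_le_exp hpos]
      rfl

end

end Pool.Agent.Results.MP_6bc78b_nt.QuantitativeSimplicity
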