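import Pool.Agent.U196.SN.LdS
import Pool.Agent.Q97.UM.IsoF

set_option autoImplicit false

/-!
# The signs of the derivative of Hardy's function at its simple zeros

Let `A = 3/2 - cot(1/√2)/√2 = 0.6725…` and `r(T) = √(log T / log log T)`. No hypothesis is assumed. For EACH of the two signs `σ`:

(1) relative to the weight `|B(t)|²` of EVERY Dirichlet polynomial `B(t) = ∑ b_n n^(-1/2-it)` of length `T^θ` the zeros `t` of `Z` in
`(T, 2T]` with `σ Z'(t) > 0` carry at least `A/2 - ε = 0.336… - ε` and at most `1/2 + ε` of the weight of all nontrivial zeros of zeta: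
no Dirichlet polynomial distinguishes the zeros at which `Z` increases from those at which it decreases;
(2) those of them which are at distance at least `d/log T` from all other nontrivial zeros carry at least `A - 1/2 - ε = 0.172… - ε`;
(3) for all real `k` (positive or negative) the sum of `|Z'(t)|^(2k)` over these isolated simple zeros with `σ Z'(t) > 0` in `(T, 2T]`
is at least `c T (log T)^((k+1)²)`;
(4) at least `T^(1-ε)` of them have `|Z'(t)| ≥ exp(c r(T))`, and at least `T^(1-ε)` have `|Z'(t)| ≤ exp(-c r(T))`: omega results for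
`Z'` at isolated simple zeros with both signs, for large and for small values;
(5) for `0 < κ < 1` the number of zeros `t` of `Z` in `(T, 2T]` with `σ Z'(t) ≥ (log t)^(1+κ)` is `T (log T)^(1-κ²+o(1))`.

The idea: between the zeros of odd order `Z` changes its sign alternately in the two directions, so for every function `f` the sum of
`f` over the crossings of one direction differs from that over the other by at most the variation of `f`; for `f = |B|²` the variation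
on `[T, 2T]` is at most `10 θ log T · T ∑ |b_n|²/n`, a small part of the weight of the zeros. As this holds for all `B` (resonators and
tilting polynomials included), moments, extreme values and large deviations of the derivative can be separated by its sign. The shares
come from the theorems on distinct and on isolated simple zeros relative to every Dirichlet polynomial (library project `Q97.UM`).
-/

namespace Pool.Agent.Results.MP_6bc78b_nt.SignsEveryPolynomial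

open Filter Topology Complex

noncomputable section

/-- the phase `exp (i ϑ(t))`, with `ϑ(t) = arg Γ(1/4 + i t / 2) - (t / 2) log π` -/
def phase (t : ℝ) : ℂ :=
  Gamma (1 / 4 + I * t / 2) / ‖Gamma (1 / 4 + I * t / 2)‖ * cexp (-(I * (t / 2) * Real.log Real.pi))

/-- Hardy's function `Z(t) = exp (i ϑ(t)) ζ(1/2 + i t)`, a real number; the theorem contains the proof that the product is real -/
def Z (t : ℝ) : ℝ := (phase t * riemannZeta (1 / 2 + I * t)).re

/-- the Dirichlet polynomial with the coefficients `b_1, ..., b_N` on the critical line -/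
def B (N : ℕ) (b : ℕ → ℂ) (t : ℝ) : ℂ := ∑ n ∈ Finset.Icc 1 N, b n * (n : ℂ) ^ (-(1 / 2 + t * I))

/-- the nontrivial zeros of `ζ` with ordinate in `(T, 2T]` -/
def zeros (T : ℝ) : Set ℂ := {s : ℂ | riemannZeta s = 0 ∧ 0 < s.re ∧ s.re < 1 ∧ T < s.im ∧ s.im ≤ 2 * T}

/-- the multiplicity of a zero -/
def mult (s : ℂ) : ℕ := analyticOrderNatAt riemannZeta s

/-- the weight of all zeros, with multiplicity -/
def total (T : ℝ) (N : ℕ) (b : ℕ → ℂ) : ℝ := ∑ᶠ s ∈ zeros T, (mult s : ℝ) * ‖B N b s.im‖ ^ 2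

/-- the zeros `t` of `Z` in `(T, 2T]` with `σ Z'(t) > 0` -/
def signed (σ T : ℝ) : Set ℝ := {t : ℝ | T < t ∧ t ≤ 2 * T ∧ Z t = 0 ∧ 0 < σ * deriv Z t}

/-- those of them for which `1/2 + it` is at distance at least `d / log T` from every other nontrivial zero of zeta -/
def isolated (σ d T : ℝ) : Set ℝ := {t : ℝ | t ∈ signed σ T ∧ ∀ s : ℂ, riemannZeta s = 0 → 0 < s.re → s.re < 1 →
  s ≠ 1 / 2 + I * t → d / Real.log T ≤ ‖s - (1 / 2 + I * t)‖}

/-- the weight of a set of ordinates -/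
def weight (S : Set ℝ) (N : ℕ) (b : ℕ → ℂ) : ℝ := ∑ᶠ t ∈ S, ‖B N b t‖ ^ 2

/-- `√(log T / log log T)` -/
def r (T : ℝ) : ℝ := Real.sqrt (Real.log T / Real.log (Real.log T))

/-- the constant `3/2 - cot(1/√2)/√2 = 0.6725…` -/
def A : ℝ := 3 / 2 - Real.cot (1 / Real.sqrt 2) / Real.sqrt 2

lemma A_eq : A = 2 - H370.cMTinv := by
  have h : H370.cMTinv = 1 / 2 + Real.cot (1 / Real.sqrt 2) / Real.sqrt 2 := rfl
  rw [h]; unfold A; ring

lemma Z_zero (t : ℝ) : Z t = 0 ↔ Pool.Agent.R304.SG.Z t = 0 := by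
  constructor
  · intro h
    have h1 := Pool.Agent.R304.SG.Z_re t
    have h2 : (Pool.Agent.R304.SG.Z t).re = 0 := h
    rw [h2] at h1
    simpa using h1.symm
  · intro h
    have : Z t = (Pool.Agent.R304.SG.Z t).re := rfl
    rw [this, h]; simp

lemma hasDeriv {t : ℝ} (h : Z t = 0) : HasDerivAt Pool.Agent.R304.SG.Z (Pool.Agent.Results.MP_6bc78b_nt.SimpleZerosOfZ.phase t *
      (deriv riemannZeta (1 / 2 + I * t) * I)) t :=
  Pool.Agent.Results.MP_6bc78b_nt.SimpleZerosOfZ.Z_hasDerivAt t ((Pool.Agent.R304.SG.Z_zero_iff t).mp ((Z_zero t).1 h))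

lemma deriv_Z {t : ℝ} (h : Z t = 0) : deriv Z t = (deriv Pool.Agent.R304.SG.Z t).re := by
  rw [(hasDeriv h).deriv]
  have h1 := Complex.reCLM.hasFDerivAt.comp_hasDerivAt t (hasDeriv h)
  exact h1.deriv

lemma phase_norm (t : ℝ) : ‖Pool.Agent.Results.MP_6bc78b_nt.SimpleZerosOfZ.phase t‖ = 1 := by
  unfold Pool.Agent.Results.MP_6bc78b_nt.SimpleZerosOfZ.phase
  rw [norm_mul, norm_div, Complex.norm_real, norm_norm,
    div_self (norm_ne_zero_iff.mpr (Pool.Agent.Results.MP_6bc78b_nt.SimpleZerosOfZ.gamma_ne t)), Complex.norm_exp, one_mul]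
  have : (-(I * ((t : ℂ) / 2) * (Real.log Real.pi : ℂ))).re = 0 := by
    have e : -(I * ((t : ℂ) / 2) * (Real.log Real.pi : ℂ)) = ((-(t / 2 * Real.log Real.pi) : ℝ) : ℂ) * I := by
      push_cast; ring
    rw [e]
    simp
  rw [this, Real.exp_zero]

lemma abs_deriv {t : ℝ} (h : Z t = 0) : |deriv Z t| = ‖deriv riemannZeta (1 / 2 + I * t)‖ := by
  have h0 := (Z_zero t).1 h
  have h1 := (Pool.Agent.R304.SG.local_simple h0 (hasDeriv h)).1
  have h2 : ‖deriv Pool.Agent.R304.SG.Z t‖ = ‖deriv riemannZeta (1 / 2 + I * t)‖ := by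
    rw [(hasDeriv h).deriv, norm_mul, norm_mul, phase_norm, Complex.norm_I, one_mul, mul_one]
  rw [deriv_Z h, ← h2]
  have h3 : deriv Pool.Agent.R304.SG.Z t = (((deriv Pool.Agent.R304.SG.Z t).re : ℝ) : ℂ) := by
    apply Complex.ext
    · simp
    · rw [(hasDeriv h).deriv]
      rw [Complex.ofReal_im]
      exact h1
  conv_rhs => rw [h3]
  rw [Complex.norm_real, Real.norm_eq_abs]

lemma zeros_eq (T : ℝ) : zeros T = H370.zset riemannZeta T (2 * T) := by
  ext s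
  simp only [zeros, H370.zset, Set.mem_ofPred_eq]
  tauto

lemma total_eq {T : ℝ} (hT : 1 ≤ T) (N : ℕ) (b : ℕ → ℂ) : total T N b = Pool.Agent.U196.SN.tot T N b := by
  unfold total
  rw [zeros_eq, H370.finsum_Zf H370.good_zeta hT]
  rfl

/-- ordinates and zeros -/
lemma signed_iff {σ T : ℝ} (hT : 1 ≤ T) {t : ℝ} : t ∈ signed σ T ↔ (1 / 2 + I * t : ℂ) ∈ Pool.Agent.U196.SN.CS σ T := by
  unfold Pool.Agent.U196.SN.CS
  rw [Finset.mem_filter, Pool.Agent.U196.SN.mem_CZ hT, Pool.Agent.U196.SN.half_im, Pool.Agent.U196.SN.half_re]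
  unfold Pool.Agent.U196.SN.dZ
  rw [Pool.Agent.U196.SN.half_im]
  constructor
  · rintro ⟨h1, h2, h3, h4⟩
    rw [deriv_Z h3] at h4
    exact ⟨⟨rfl, h1, h2, (Pool.Agent.R304.SG.Z_zero_iff t).mp ((Z_zero t).1 h3)⟩, h4⟩
  · rintro ⟨⟨-, h1, h2, h3⟩, h4⟩
    have h5 := (Z_zero t).2 ((Pool.Agent.R304.SG.Z_zero_iff t).mpr h3)
    refine ⟨h1, h2, h5, ?_⟩
    rw [deriv_Z h5]
    exact h4

lemma isolated_iff {σ d T : ℝ} (hT : 16 ≤ T) (hd : d ≤ 1) {t : ℝ} :
    t ∈ isolated σ d T ↔ (1 / 2 + I * t : ℂ) ∈ Pool.Agent.U196.SN.ZS σ d T := by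
  unfold Pool.Agent.U196.SN.ZS
  rw [Finset.mem_filter, Pool.Agent.Q97.UM.mem_ZI_iff hT hd]
  unfold isolated
  rw [Set.mem_setOf_eq, signed_iff (by linarith)]
  unfold Pool.Agent.U196.SN.CS
  rw [Finset.mem_filter, Pool.Agent.U196.SN.mem_CZ (by linarith)]
  constructor
  · rintro ⟨⟨⟨h1, h2, h3, h4⟩, h5⟩, h6⟩
    refine ⟨⟨h1, h2, h3, h4, ?_, h6⟩, h5⟩
    intro h0
    have h7 : Z t = 0 := (Z_zero t).2 ((Pool.Agent.R304.SG.Z_zero_iff t).mpr h4)
    have h8 := abs_deriv h7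
    rw [h0, norm_zero, abs_eq_zero] at h8
    unfold Pool.Agent.U196.SN.dZ at h5
    rw [Pool.Agent.U196.SN.half_im, ← deriv_Z h7, h8, mul_zero] at h5
    exact lt_irrefl _ h5
  · rintro ⟨⟨h1, h2, h3, h4, -, h6⟩, h5⟩
    exact ⟨⟨⟨h1, h2, h3, h4⟩, h5⟩, h6⟩

/-- sums over sets of ordinates -/
lemma sum_of {S : Set ℝ} {F : Finset ℂ} (hF : ∀ s ∈ F, s.re = 1 / 2) (h : ∀ t : ℝ, t ∈ S ↔ (1 / 2 + I * t : ℂ) ∈ F) (g : ℝ → ℝ) :
    ∑ᶠ t ∈ S, g t = ∑ s ∈ F, g s.im := by
  classical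
  have e : S = ((F.image (fun s => s.im) : Finset ℝ) : Set ℝ) := by
    ext t
    rw [h, Finset.coe_image, Set.mem_image]
    constructor
    · intro ht
      exact ⟨_, ht, Pool.Agent.U196.SN.half_im t⟩
    · rintro ⟨s, hs, rfl⟩
      rw [Pool.Agent.U196.SN.half_eq (hF s hs)]
      exact hs
  rw [e, finsum_mem_coe_finset, Finset.sum_image]
  intro s hs s' hs' hss
  exact Complex.ext ((hF s hs).trans (hF s' hs').symm) hss

lemma card_of {S : Set ℝ} {F : Finset ℂ} (hF : ∀ s ∈ F, s.re = 1 / 2) (h : ∀ t : ℝ, t ∈ S ↔ (1 / 2 + I * t : ℂ) ∈ F) :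
    S.ncard = F.card := by
  classical
  have e : S = ((F.image (fun s => s.im) : Finset ℝ) : Set ℝ) := by
    ext t
    rw [h, Finset.coe_image, Set.mem_image]
    constructor
    · intro ht
      exact ⟨_, ht, Pool.Agent.U196.SN.half_im t⟩
    · rintro ⟨s, hs, rfl⟩
      rw [Pool.Agent.U196.SN.half_eq (hF s hs)]
      exact hs
  rw [e, Set.ncard_coe_finset, Finset.card_image_of_injOn]
  intro s hs s' hs' hss
  exact Complex.ext ((hF s hs).trans (hF s' hs').symm) hss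

lemma CS_re {σ T : ℝ} (hT : 1 ≤ T) : ∀ s ∈ Pool.Agent.U196.SN.CS σ T, s.re = 1 / 2 := fun s hs =>
  ((Pool.Agent.U196.SN.mem_CZ hT).1 (Finset.mem_of_mem_filter s hs)).1

lemma ZS_re {σ d T : ℝ} (hT : 1 ≤ T) : ∀ s ∈ Pool.Agent.U196.SN.ZS σ d T, s.re = 1 / 2 := fun s hs =>
  ((Pool.Agent.U196.SN.mem_CZ hT).1 (Pool.Agent.U196.SN.ZI_sub (Pool.Agent.U196.SN.ZS_sub σ d T hs))).1

/-- **The signs of the derivative of Hardy's function.** -/
theorem result :
    (∀ t : ℝ, (Z t : ℂ) = phase t * riemannZeta (1 / 2 + I * t)) ∧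
    -- both signs in every weight
    (∀ ε : ℝ, 0 < ε → ∃ θ T₀ : ℝ, 0 < θ ∧ ∀ T : ℝ, T₀ ≤ T → ∀ N : ℕ, (N : ℝ) ≤ T ^ θ → ∀ b : ℕ → ℂ,
      ∀ σ : ℝ, σ = 1 ∨ σ = -1 → (A / 2 - ε) * total T N b ≤ weight (signed σ T) N b ∧
        weight (signed σ T) N b ≤ (1 / 2 + ε) * total T N b) ∧
    -- isolated zeros
    (∀ ε : ℝ, 0 < ε → ∃ d θ T₀ : ℝ, 0 < d ∧ 0 < θ ∧ ∀ T : ℝ, T₀ ≤ T → ∀ N : ℕ, (N : ℝ) ≤ T ^ θ → ∀ b : ℕ → ℂ,
      ∀ σ : ℝ, σ = 1 ∨ σ = -1 → (A - 1 / 2 - ε) * total T N b ≤ weight (isolated σ d T) N b) ∧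
    -- moments and extreme values for each sign
    (∃ d : ℝ, 0 < d ∧
      (∀ K : ℝ, 0 < K → ∃ c T₀ : ℝ, 0 < c ∧ ∀ T : ℝ, T₀ ≤ T → ∀ k : ℝ, |k| ≤ K → ∀ σ : ℝ, σ = 1 ∨ σ = -1 →
        c * T * Real.log T ^ ((k + 1) ^ 2) ≤ ∑ᶠ t ∈ isolated σ d T, |deriv Z t| ^ (2 * k)) ∧
      (∀ ε : ℝ, 0 < ε → ∃ c T₀ : ℝ, 0 < c ∧ ∀ T : ℝ, T₀ ≤ T → ∀ σ : ℝ, σ = 1 ∨ σ = -1 →
        T ^ (1 - ε) ≤ ({t : ℝ | t ∈ isolated σ d T ∧ Real.exp (c * r T) ≤ |deriv Z t|}.ncard : ℝ) ∧
        T ^ (1 - ε) ≤ ({t : ℝ | t ∈ isolated σ d T ∧ |deriv Z t| ≤ Real.exp (-(c * r T))}.ncard : ℝ))) ∧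
    -- large deviations for each sign
    (∀ κ ε : ℝ, 0 < κ → κ < 1 → 0 < ε → ∃ T₀ : ℝ, ∀ T : ℝ, T₀ ≤ T → ∀ σ : ℝ, σ = 1 ∨ σ = -1 →
      T * Real.log T ^ (1 - κ ^ 2 - ε) ≤ ({t : ℝ | t ∈ signed σ T ∧ Real.log t ^ (1 + κ) ≤ |deriv Z t|}.ncard : ℝ) ∧
      ({t : ℝ | t ∈ signed σ T ∧ Real.log t ^ (1 + κ) ≤ |deriv Z t|}.ncard : ℝ) ≤ T * Real.log T ^ (1 - κ ^ 2 + ε)) := by
  classical
  refine ⟨fun t => Pool.Agent.R304.SG.Z_re t, ?_, ?_, ?_, ?_⟩
  · intro ε hε
    obtain ⟨θ, hθ, h⟩ := Pool.Agent.U196.SN.signs (ε := min ε (1 / 4)) (by positivity) (min_le_right _ _)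
    have hev := h.and (eventually_ge_atTop (16 : ℝ))
    rw [Filter.eventually_atTop] at hev
    obtain ⟨T₀, hT₀⟩ := hev
    refine ⟨θ, T₀, hθ, fun T hT N hN b σ hσ => ?_⟩
    obtain ⟨h1, hT16⟩ := hT₀ T hT
    obtain ⟨h2, h3⟩ := h1 N hN b σ hσ
    have hw : weight (signed σ T) N b = ∑ s ∈ Pool.Agent.U196.SN.CS σ T, ‖Pool.Agent.Q97.UM.dp N b s.im‖ ^ 2 :=
      sum_of (CS_re (by linarith)) (fun t => signed_iff (by linarith)) (fun t => ‖B N b t‖ ^ 2)
    rw [hw, total_eq (by linarith), A_eq]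
    have ht := Pool.Agent.U196.SN.tot_nonneg T N b
    have hm : min ε (1 / 4) ≤ ε := min_le_left _ _
    constructor
    · refine le_trans (mul_le_mul_of_nonneg_right ?_ ht) h2
      linarith
    · exact h3.trans (mul_le_mul_of_nonneg_right (by linarith) ht)
  · intro ε hε
    obtain ⟨d, θ, hd, hd1, hθ, h⟩ := Pool.Agent.U196.SN.iso_signs (ε := min ε (1 / 4)) (by positivity) (min_le_right _ _)
    have hev := h.and (eventually_ge_atTop (16 : ℝ))
    rw [Filter.eventually_atTop] at hev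
    obtain ⟨T₀, hT₀⟩ := hev
    refine ⟨d, θ, T₀, hd, hθ, fun T hT N hN b σ hσ => ?_⟩
    obtain ⟨h1, hT16⟩ := hT₀ T hT
    have h2 := h1 N hN b σ hσ
    have hw : weight (isolated σ d T) N b = ∑ s ∈ Pool.Agent.U196.SN.ZS σ d T, ‖Pool.Agent.Q97.UM.dp N b s.im‖ ^ 2 :=
      sum_of (ZS_re (by linarith)) (fun t => isolated_iff hT16 hd1) (fun t => ‖B N b t‖ ^ 2)
    rw [hw, total_eq (by linarith), A_eq]
    have ht := Pool.Agent.U196.SN.tot_nonneg T N b
    have hm : min ε (1 / 4) ≤ ε := min_le_left _ _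
    exact (mul_le_mul_of_nonneg_right (by linarith) ht).trans h2
  · obtain ⟨d, hd, hd1, hM, hX⟩ := Pool.Agent.U196.SN.moments
    refine ⟨d, hd, fun K hK => ?_, fun ε hε => ?_⟩
    · obtain ⟨c, hc, h⟩ := hM (max K 1) (le_max_right _ _)
      have hev := h.and (eventually_ge_atTop (16 : ℝ))
      rw [Filter.eventually_atTop] at hev
      obtain ⟨T₀, hT₀⟩ := hev
      refine ⟨c, T₀, hc, fun T hT k hk σ hσ => ?_⟩
      obtain ⟨h1, hT16⟩ := hT₀ T hT
      refine (h1 k (hk.trans (le_max_left _ _)) σ hσ).trans (le_of_eq ?_)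
      rw [sum_of (ZS_re (by linarith)) (fun t => isolated_iff hT16 hd1) (fun t => |deriv Z t| ^ (2 * k))]
      refine Finset.sum_congr rfl fun s hs => ?_
      have hre := ZS_re (σ := σ) (d := d) (by linarith : (1:ℝ) ≤ T) s hs
      have hz : Z s.im = 0 := by
        have h3 : s.im ∈ isolated σ d T := by
          rw [isolated_iff hT16 hd1, Pool.Agent.U196.SN.half_eq hre]; exact hs
        exact h3.1.2.2.1
      rw [abs_deriv hz, Pool.Agent.U196.SN.half_eq hre]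
    · obtain ⟨c, hc, h⟩ := hX ε hε
      have hev := h.and (eventually_ge_atTop (16 : ℝ))
      rw [Filter.eventually_atTop] at hev
      obtain ⟨T₀, hT₀⟩ := hev
      refine ⟨c, T₀, hc, fun T hT σ hσ => ?_⟩
      obtain ⟨h1, hT16⟩ := hT₀ T hT
      have hz : ∀ t : ℝ, (1 / 2 + I * t : ℂ) ∈ Pool.Agent.U196.SN.ZS σ d T → Z t = 0 ∧ 0 < ‖deriv riemannZeta (1 / 2 + I * t)‖ := by
        intro t ht
        have h3 : t ∈ isolated σ d T := (isolated_iff hT16 hd1).2 ht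
        refine ⟨h3.1.2.2.1, ?_⟩
        have h4 := (Pool.Agent.Q97.UM.mem_ZI_iff hT16 hd1).1 (Pool.Agent.U196.SN.ZS_sub σ d T ht)
        exact norm_pos_iff.2 h4.2.2.2.2.1
      constructor
      · refine (h1 σ hσ 1 (Or.inl rfl)).trans (le_of_eq ?_)
        rw [card_of (F := (Pool.Agent.U196.SN.ZS σ d T).filter
          (fun s => c * Pool.Agent.U196.UM.sq T ≤ 1 * Real.log ‖deriv riemannZeta s‖))]
        · exact fun s hs => ZS_re (by linarith) s (Finset.mem_of_mem_filter s hs)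
        · intro t
          rw [Finset.mem_filter, Set.mem_setOf_eq, isolated_iff hT16 hd1]
          refine and_congr_right fun ht => ?_
          obtain ⟨z1, z2⟩ := hz t ht
          rw [abs_deriv z1, one_mul, Real.le_log_iff_exp_le z2]
          rfl
      · refine (h1 σ hσ (-1) (Or.inr rfl)).trans (le_of_eq ?_)
        rw [card_of (F := (Pool.Agent.U196.SN.ZS σ d T).filter
          (fun s => c * Pool.Agent.U196.UM.sq T ≤ -1 * Real.log ‖deriv riemannZeta s‖))]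
        · exact fun s hs => ZS_re (by linarith) s (Finset.mem_of_mem_filter s hs)
        · intro t
          rw [Finset.mem_filter, Set.mem_setOf_eq, isolated_iff hT16 hd1]
          refine and_congr_right fun ht => ?_
          obtain ⟨z1, z2⟩ := hz t ht
          rw [abs_deriv z1, neg_one_mul, le_neg, Real.log_le_iff_le_exp z2]
          rfl
  · intro κ ε hκ hκ1 hε
    obtain ⟨C, hC, hU⟩ := Pool.Agent.U196.SN.ld_up hκ hκ1
    have hlim : ∀ᶠ T : ℝ in atTop, C ≤ Real.log T ^ ε :=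
      Real.tendsto_log_atTop.eventually ((tendsto_rpow_atTop hε).eventually_ge_atTop C)
    have hev := (((Pool.Agent.U196.SN.ld_low hκ.le hκ1 hε).and hU).and hlim).and (eventually_ge_atTop (16 : ℝ))
    rw [Filter.eventually_atTop] at hev
    obtain ⟨T₀, hT₀⟩ := hev
    refine ⟨T₀, fun T hT σ hσ => ?_⟩
    obtain ⟨⟨⟨h1, h2⟩, h3⟩, hT16⟩ := hT₀ T hT
    have hL : 0 < Real.log T := Real.log_pos (by linarith)
    have hcard : {t : ℝ | t ∈ signed σ T ∧ Real.log t ^ (1 + κ) ≤ |deriv Z t|}.ncard =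
        ((Pool.Agent.U196.SN.CS σ T).filter (fun s => Real.log s.im ^ (1 + κ) ≤ ‖deriv riemannZeta s‖)).card := by
      refine card_of (fun s hs => CS_re (by linarith) s (Finset.mem_of_mem_filter s hs)) fun t => ?_
      rw [Finset.mem_filter, Set.mem_setOf_eq, signed_iff (by linarith), Pool.Agent.U196.SN.half_im]
      refine and_congr_right fun ht => ?_
      have hz : Z t = 0 := by
        have h3 : t ∈ signed σ T := (signed_iff (by linarith)).2 ht
        exact h3.2.2.1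
      rw [abs_deriv hz]
    rw [hcard]
    refine ⟨h1 σ hσ, (h2 σ).trans ?_⟩
    have hp : 0 ≤ T * Real.log T ^ (1 - κ ^ 2) := by positivity
    calc C * T * Real.log T ^ (1 - κ ^ 2) = C * (T * Real.log T ^ (1 - κ ^ 2)) := by ring
      _ ≤ Real.log T ^ ε * (T * Real.log T ^ (1 - κ ^ 2)) := mul_le_mul_of_nonneg_right h3 hp
      _ = T * (Real.log T ^ (1 - κ ^ 2) * Real.log T ^ ε) := by ring
      _ = T * Real.log T ^ (1 - κ ^ 2 + ε) := by rw [← Real.rpow_add hL]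

end

end Pool.Agent.Results.MP_6bc78b_nt.SignsEveryPolynomial
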