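import Pool.Agent.U761.SZ.SZM

set_option autoImplicit false

/-!
# Simple zeros of Hardy's function at every size of `log ζ` and at the extreme values of `S`, unconditionally

Let `log ζ(1/2 + it) = log |ζ(1/2 + it)| + i π S(t)`, where `S(t) = (1/π) arg ζ(1/2 + it)` is defined by continuous variation, let
`q(T) = log T / log log T` and `A = 3/2 - cot(1/√2)/√2 = 0.6725…`. No hypothesis is assumed.

(1) For every `ε > 0` and all large constants `H` there are `d, c, K, C > 0` such that for all large `T` and ALL complex `z` with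
`|z| ≤ c √(q(T))` the set of the `t ∈ (T, 2T]` with the following properties has measure at least
`T exp (-C (1 + |z|² / log (2 + log T / ((1 + |z|²) log log T))))`:

* `|log ζ(1/2 + it) - z| ≤ K √(log log T)`;
* `|π S(u) - Im z| ≤ K √(log log T)` for all `u` with `|u - t| ≤ H / log T` which are not ordinates of zeros;
* the number of the zeros with `|γ - t| ≤ H / log T` is between `(1 - ε) H/π` and `(1 + ε) H/π`, and at least the share `A - ε` of
  them are simple zeros on the critical line (that is: simple zeros of Hardy's function `Z`) with distance at least `d / log T` to the other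
  zeros of the window.

(2) For every `ε > 0` there is `c > 0` such that for all large `T` and both signs `σ = ± 1` at least `T^(1 - ε)` simple zeros `γ ∈ (T, 2T]`
of `Z` have the property that `σ S(v) ≥ c √(q(T))` for all `v` near `γ` which are not ordinates.

So the simple zeros of `Z`, with the full share `A - ε` in windows of bounded length (in units of the mean spacing), are found at every size
of `|ζ|` and of the argument in the range in which such values are known to exist, up to the extreme values. For real `κ` and sizes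
`(log T)^κ` of `|ζ|` (windows of length `(log T)^(η - 1)`) this is the theorem `MP_164d34_nt.ExceptionalValues` of the starting files.

The proof combines: resonators in every complex direction and the approximation of the complex logarithm relative to every Dirichlet
polynomial (`Pool.Agent.U761.SZ.tiltp`); isolated simple critical zeros in windows relative to every Dirichlet polynomial
(`Pool.Agent.Q97.UM.b_WINI`); the number variance relative to every Dirichlet polynomial (`Pool.Agent.U196.CL.variance`).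
-/

namespace Pool.Agent.Results.MP_6bc78b_nt.SimpleZerosAtEveryLevel

open Filter Topology MeasureTheory Complex

noncomputable section

/-- `S(t) = (1/π) arg ζ(1/2 + it)`, by continuous variation along the segments from `2` to `2 + it` and from `2 + it` to
`1/2 + it`: `(1/π) Im ∫ (ζ'/ζ)(s) ds` along this path -/
def S (t : ℝ) : ℝ := 1 / Real.pi * ((∫ u in (0 : ℝ)..t, (logDeriv riemannZeta ((2 : ℂ) + u * I)).re) -
  ∫ x in (1 / 2 : ℝ)..2, (logDeriv riemannZeta ((x : ℂ) + t * I)).im)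

/-- `log ζ(1/2 + it) = log |ζ(1/2 + it)| + i π S(t)` -/
def logZeta (t : ℝ) : ℂ := (Real.log ‖riemannZeta (1 / 2 + t * I)‖ : ℂ) + (Real.pi * S t : ℝ) * I

/-- `log T / log log T` -/
def q (T : ℝ) : ℝ := Real.log T / Real.log (Real.log T)

/-- `t` is the ordinate of a zero of zeta -/
def IsOrd (t : ℝ) : Prop := ∃ s : ℂ, riemannZeta s = 0 ∧ s.im = t

/-- the nontrivial zeros of zeta with ordinate in `[t - r, t + r]` -/
def window (t r : ℝ) : Set ℂ := {s : ℂ | riemannZeta s = 0 ∧ 0 < s.re ∧ s.re < 1 ∧ |s.im - t| ≤ r}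

/-- the multiplicity of a zero -/
def mult (s : ℂ) : ℕ := analyticOrderNatAt riemannZeta s

/-- the number of the zeros in the window, with multiplicity -/
def all (t r : ℝ) : ℕ := ∑ᶠ s ∈ window t r, mult s

/-- the number of the simple zeros on the critical line in the window with distance at least `δ` to the other zeros in the window -/
def simple (δ t r : ℝ) : ℕ := {s : ℂ | s ∈ window t r ∧ s.re = 1 / 2 ∧ mult s = 1 ∧ ∀ s' ∈ window t r, s' ≠ s → δ ≤ ‖s - s'‖}.ncard

/-- the constant `A = 3/2 - cot(1/√2)/√2 = 0.6725…` of Montgomery and Taylor -/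
def A : ℝ := 3 / 2 - Real.cot (1 / Real.sqrt 2) / Real.sqrt 2

/-- the simple zeros `1/2 + iγ` on the critical line, `T < γ ≤ 2T`, such that `σ S(v) ≥ m` for all `v` near `γ` which are not ordinates -/
def extreme (σ m T : ℝ) : Set ℂ := {s : ℂ | riemannZeta s = 0 ∧ s.re = 1 / 2 ∧ mult s = 1 ∧ T < s.im ∧ s.im ≤ 2 * T ∧
  ∀ᶠ v in 𝓝 s.im, ¬ IsOrd v → m ≤ σ * S v}

theorem A_eq : A = 2 - H370.cMTinv := by
  unfold A H370.cMTinv
  ring

theorem noOrd {t : ℝ} (h : ¬ IsOrd t) : Pool.Agent.U761.SZ.NoOrd t := by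
  intro x hx
  refine h ⟨(x : ℂ) + t * I, hx, ?_⟩
  simp

theorem noOrd' {t : ℝ} (h : Pool.Agent.U761.SZ.NoOrd t) : ¬ IsOrd t := by
  rintro ⟨s, hs, hst⟩
  refine h s.re ?_
  have : ((s.re : ℂ) + t * I) = s := by
    rw [← hst]
    exact Complex.re_add_im s
  rw [this]
  exact hs

theorem S_eq (t : ℝ) : Real.pi * S t = Pool.Agent.U761.SZ.piS t := by
  unfold S Pool.Agent.U761.SZ.piS
  rw [← mul_assoc, mul_one_div_cancel Real.pi_ne_zero, one_mul]

theorem logZeta_eq {t : ℝ} (h : Pool.Agent.U761.SZ.piS t = Pool.Agent.U761.SZ.aS t) : logZeta t = Pool.Agent.U761.SZ.Lz t := by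
  unfold logZeta Pool.Agent.U761.SZ.Lz
  rw [S_eq, h]
  apply Complex.ext <;> simp [Pool.Agent.Q97.UM.zt]

/-- the main set -/
def good (ε H d K T : ℝ) (z : ℂ) (t : ℝ) : Prop := ¬ IsOrd t ∧ ‖logZeta t - z‖ ≤ K * Real.sqrt (Real.log (Real.log T)) ∧
  (∀ u : ℝ, |u - t| ≤ H / Real.log T → ¬ IsOrd u → |Real.pi * S u - z.im| ≤ K * Real.sqrt (Real.log (Real.log T))) ∧
  |(all t (H / Real.log T) : ℝ) - H / Real.pi| ≤ ε * (H / Real.pi) ∧
  (A - ε) * all t (H / Real.log T) ≤ simple (d / Real.log T) t (H / Real.log T)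

theorem main (ε : ℝ) (hε : 0 < ε) : ∃ H₀ : ℝ, 1 ≤ H₀ ∧ ∀ H : ℝ, H₀ ≤ H → ∃ d c K C T₀ : ℝ, 0 < d ∧ 0 < c ∧ 0 < K ∧ 0 < C ∧
    ∀ T : ℝ, T₀ ≤ T → ∀ z : ℂ, ‖z‖ ≤ c * Real.sqrt (q T) →
      T * Real.exp (-(C * (1 + ‖z‖ ^ 2 / Real.log (2 + Real.log T / ((1 + ‖z‖ ^ 2) * Real.log (Real.log T)))))) ≤
        volume.real {t : ℝ | (T + 2 * Real.log T < t ∧ t ≤ 2 * T - 2 * Real.log T) ∧ good ε H d K T z t} := by
  obtain ⟨ε', hε'⟩ : ∃ ε' : ℝ, ε' = min ε (1 / 2) := ⟨_, rfl⟩
  have hε0 : 0 < ε' := by rw [hε']; positivity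
  have hε1 : ε' ≤ 1 / 2 := by rw [hε']; exact min_le_right _ _
  have hε2 : ε' ≤ ε := by rw [hε']; exact min_le_left _ _
  obtain ⟨H₀, hH₀, h0⟩ := Pool.Agent.U761.SZ.szl ε' hε0 hε1
  obtain ⟨C₁, hC₁, harg⟩ := Pool.Agent.U761.SZ.arg_win
  refine ⟨H₀, hH₀, fun H hH => ?_⟩
  have hH1 : 1 ≤ H := hH₀.trans hH
  have hH0 : 0 < H := by linarith
  obtain ⟨d, c, K, C, hd, -, hc, hK, hC, h1⟩ := h0 H hH
  have hpi := Real.pi_pos
  have hev : ∀ᶠ T : ℝ in atTop, 16 ≤ T ∧ 1 ≤ Real.log (Real.log T) ∧ H + 2 ≤ Real.log T :=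
    (eventually_ge_atTop 16).and (((Real.tendsto_log_atTop.comp Real.tendsto_log_atTop).eventually_ge_atTop 1).and
      (Real.tendsto_log_atTop.eventually_ge_atTop (H + 2)))
  obtain ⟨T₀, hT₀⟩ := Filter.eventually_atTop.1 (h1.and hev)
  refine ⟨d, c, K + (4 * H + C₁ * H), C, T₀, hd, hc, by positivity, hC, fun T hT z hz => ?_⟩
  obtain ⟨h2, hT16, hll, hLH⟩ := hT₀ T hT
  obtain ⟨L, hL⟩ : ∃ L : ℝ, L = Real.log T := ⟨_, rfl⟩
  obtain ⟨ll, hlld⟩ : ∃ ll : ℝ, ll = Real.log L := ⟨_, rfl⟩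
  have hT1 : 1 ≤ T := by linarith
  have hz' : ‖z‖ ≤ c * Real.sqrt (Real.log T / Real.log (Real.log T)) := hz
  have h3 := h2 z hz'
  unfold good
  rw [← hL] at h3 hll hLH ⊢
  rw [← hlld] at h3 hll ⊢
  have hL0 : 0 < L := by linarith
  have hsq : 1 ≤ Real.sqrt ll := Real.one_le_sqrt.2 hll
  refine h3.trans ?_
  rw [measureReal_def]
  refine ENNReal.toReal_mono ?_ ?_
  · exact ((measure_mono (t := Set.Ioc (T + 2 * L) (2 * T - 2 * L)) (fun t ht => ⟨ht.1.1, ht.1.2⟩)).trans_lt (by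
      rw [Real.volume_Ioc]; exact ENNReal.ofReal_lt_top)).ne
  · refine measure_mono_ae ?_
    filter_upwards [Pool.Agent.U761.SZ.ae_not_ord] with t ht hS
    obtain ⟨⟨s1, s2⟩, s3, s4, s5⟩ := hS
    have hno : Pool.Agent.U761.SZ.NoOrd t := ht.2
    have hpS : Pool.Agent.U761.SZ.piS t = Pool.Agent.U761.SZ.aS t := Pool.Agent.U761.SZ.piS_eq ht.1 fun x _ _ => ht.2 x
    have hr1 : H / L ≤ 1 := by rw [div_le_one hL0]; linarith
    have hrL : H / L * L = H := div_mul_cancel₀ _ hL0.ne'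
    have w1 : T + 1 < t - H / L := by linarith
    have w2 : t + H / L ≤ 2 * T - 1 := by linarith
    have hclose : ‖logZeta t - z‖ ≤ K * Real.sqrt ll := by rw [logZeta_eq hpS]; exact s3
    have hall : (all t (H / L) : ℝ) = Pool.Agent.Q97.UM.Nw T (H / L) t := Pool.Agent.U761.SZ.all_eq hT1 w1 w2
    have hsim : (simple (d / L) t (H / L) : ℝ) = Pool.Agent.Q97.UM.Niw d T (H / L) t := by
      have := Pool.Agent.U761.SZ.simple_eq (d := d) hT1 w1 w2
      rw [← hL] at this
      exact this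
    have hN0 := Pool.Agent.U761.SZ.Nw_nonneg T (H / L) t
    refine ⟨⟨s1, s2⟩, noOrd' hno, ?_, ?_, ?_, ?_⟩
    · refine hclose.trans (mul_le_mul_of_nonneg_right ?_ (by positivity))
      have : 0 ≤ 4 * H + C₁ * H := by positivity
      linarith
    · intro u hu hou
      have h4 := harg T t u (H / L) hT16 w1 w2 hr1 hu hno (noOrd hou)
      have h5 : Pool.Agent.Q97.UM.Nw T (H / L) t ≤ 3 / 2 * (H / Real.pi) := by
        have h6 := (abs_le.1 s5).2
        have h7 : ε' * (H / Real.pi) ≤ 1 / 2 * (H / Real.pi) := mul_le_mul_of_nonneg_right hε1 (by positivity)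
        linarith
      have h8 : Real.pi * Pool.Agent.Q97.UM.Nw T (H / L) t ≤ 3 / 2 * H := by
        calc Real.pi * Pool.Agent.Q97.UM.Nw T (H / L) t ≤ Real.pi * (3 / 2 * (H / Real.pi)) := mul_le_mul_of_nonneg_left h5 hpi.le
          _ = 3 / 2 * H := by field_simp
      have h9 : H / L * Real.log (2 * T) ≤ 2 * H := by
        have : Real.log (2 * T) ≤ 2 * L := by
          rw [Real.log_mul (by norm_num) (by linarith), ← hL]
          have := Real.log_two_lt_d9
          linarith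
        calc H / L * Real.log (2 * T) ≤ H / L * (2 * L) := mul_le_mul_of_nonneg_left this (by positivity)
          _ = 2 * H := by linarith
      have h10 : C₁ * (H / L) ≤ C₁ * H := mul_le_mul_of_nonneg_left (div_le_self hH0.le (by linarith)) hC₁.le
      have h11 : |Real.pi * S t - z.im| ≤ K * Real.sqrt ll := by
        have e : Real.pi * S t - z.im = (logZeta t - z).im := by
          unfold logZeta
          simp
        rw [e]
        exact (Complex.abs_im_le_norm _).trans hclose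
      have h12 : |Real.pi * S u - z.im| ≤ |Pool.Agent.U761.SZ.piS u - Pool.Agent.U761.SZ.piS t| + |Real.pi * S t - z.im| := by
        have e : Real.pi * S u - z.im = (Pool.Agent.U761.SZ.piS u - Pool.Agent.U761.SZ.piS t) + (Real.pi * S t - z.im) := by
          rw [S_eq, S_eq]
          ring
        rw [e]
        exact abs_add_le _ _
      have h13 : (4 * H + C₁ * H) * 1 ≤ (4 * H + C₁ * H) * Real.sqrt ll := mul_le_mul_of_nonneg_left hsq (by positivity)
      linarith [show (K + (4 * H + C₁ * H)) * Real.sqrt ll = K * Real.sqrt ll + (4 * H + C₁ * H) * Real.sqrt ll by ring]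
    · rw [hall]
      exact s5.trans (mul_le_mul_of_nonneg_right hε2 (by positivity))
    · rw [hall, hsim, A_eq]
      have h14 : ε' * Pool.Agent.Q97.UM.Nw T (H / L) t ≤ ε * Pool.Agent.Q97.UM.Nw T (H / L) t := mul_le_mul_of_nonneg_right hε2 hN0
      linarith

/-- a zero in the interior of the window -/
theorem interior {δ t r : ℝ} (h : 3 ≤ simple δ t r) : ∃ s ∈ window t r, s.re = 1 / 2 ∧ mult s = 1 ∧ |s.im - t| < r := by
  by_contra hcon
  push Not at hcon
  have h1 : {s : ℂ | s ∈ window t r ∧ s.re = 1 / 2 ∧ mult s = 1 ∧ ∀ s' ∈ window t r, s' ≠ s → δ ≤ ‖s - s'‖} ⊆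
      ({⟨1 / 2, t - r⟩, ⟨1 / 2, t + r⟩} : Set ℂ) := by
    rintro s ⟨h2, h3, h4, -⟩
    have h5 := hcon s h2 h3 h4
    have h6 : |s.im - t| = r := le_antisymm h2.2.2.2 h5
    rcases abs_cases (s.im - t) with ⟨h7, -⟩ | ⟨h7, -⟩
    · right
      rw [Set.mem_singleton_iff]
      apply Complex.ext
      · exact h3
      · show s.im = t + r
        linarith
    · left
      apply Complex.ext
      · exact h3
      · show s.im = t - r
        linarith
  have h2 := Set.ncard_le_ncard h1 (Set.toFinite _)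
  have h3 := Set.ncard_insert_le (⟨1 / 2, t - r⟩ : ℂ) {⟨1 / 2, t + r⟩}
  rw [Set.ncard_singleton] at h3
  unfold simple at h
  omega

theorem extreme_finite (σ m T : ℝ) (hT : 0 < T) : (extreme σ m T).Finite := by
  refine (H370.zset_finite' H370.good_zeta T (2 * T) hT).subset ?_
  rintro s ⟨h1, h2, -, h4, h5, -⟩
  exact ⟨by rw [h2]; norm_num, by rw [h2]; norm_num, h4, h5, h1⟩

theorem part2 (ε : ℝ) (hε : 0 < ε) : ∃ c T₀ : ℝ, 0 < c ∧ ∀ T : ℝ, T₀ ≤ T → ∀ σ : ℝ, |σ| = 1 →
    T ^ (1 - ε) ≤ ((extreme σ (c * Real.sqrt (q T)) T).ncard : ℝ) := by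
  have hpi := Real.pi_pos
  obtain ⟨H₀, hH₀, h0⟩ := main (1 / 4) (by norm_num)
  obtain ⟨H, hH⟩ : ∃ H : ℝ, H = max H₀ 100 := ⟨_, rfl⟩
  have hHH : H₀ ≤ H := by rw [hH]; exact le_max_left _ _
  have hH100 : 100 ≤ H := by rw [hH]; exact le_max_right _ _
  obtain ⟨d, c, K, C, T₀, hd, hc, hK, hC, h1⟩ := h0 H hHH
  have hl2 : 0 < Real.log 2 := Real.log_pos one_lt_two
  have hev : ∀ᶠ T : ℝ in atTop, 16 ≤ T ∧ 1 ≤ Real.log (Real.log T) ∧ 2 * H ≤ Real.log T ∧ 2 * C / ε ≤ Real.log T ∧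
      2 * C * c ^ 2 / (ε * Real.log 2) ≤ Real.log (Real.log T) ∧
      K * Real.sqrt (Real.log (Real.log T)) ≤ c / 2 * Real.sqrt (q T) := by
    have h2 : Tendsto (fun T : ℝ => Real.log (Real.log T)) atTop atTop := Real.tendsto_log_atTop.comp Real.tendsto_log_atTop
    have h3 : ∀ᶠ x : ℝ in atTop, (K * x) ^ 2 ≤ (c / 2) ^ 2 * Real.exp x := by
      have a1 := Real.tendsto_pow_mul_exp_neg_atTop_nhds_zero 2
      have a2 := a1.eventually_lt_const (show (0:ℝ) < (c / 2) ^ 2 / K ^ 2 by positivity)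
      filter_upwards [a2] with x hx
      have h4 : x ^ 2 * Real.exp (-x) * Real.exp x ≤ (c / 2) ^ 2 / K ^ 2 * Real.exp x :=
        mul_le_mul_of_nonneg_right hx.le (Real.exp_pos x).le
      rw [mul_assoc, ← Real.exp_add, neg_add_cancel, Real.exp_zero, mul_one] at h4
      calc (K * x) ^ 2 = K ^ 2 * x ^ 2 := by ring
        _ ≤ K ^ 2 * ((c / 2) ^ 2 / K ^ 2 * Real.exp x) := by gcongr
        _ = _ := by field_simp
    filter_upwards [eventually_ge_atTop 16, h2.eventually_ge_atTop 1, h2.eventually h3,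
      Real.tendsto_log_atTop.eventually_ge_atTop (2 * H), Real.tendsto_log_atTop.eventually_ge_atTop (2 * C / ε),
      h2.eventually_ge_atTop (2 * C * c ^ 2 / (ε * Real.log 2))] with T a1 a2 a3 a4 a5 a6
    refine ⟨a1, a2, a4, a5, a6, ?_⟩
    have hL0 : 0 < Real.log T := Real.log_pos (by linarith)
    have hll0 : 0 < Real.log (Real.log T) := by linarith
    rw [Real.exp_log hL0] at a3
    have h5 : c / 2 * Real.sqrt (q T) = Real.sqrt ((c / 2) ^ 2 * q T) := by
      rw [Real.sqrt_mul (by positivity), Real.sqrt_sq (by positivity)]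
    have h6 : K * Real.sqrt (Real.log (Real.log T)) = Real.sqrt (K ^ 2 * Real.log (Real.log T)) := by
      rw [Real.sqrt_mul (by positivity), Real.sqrt_sq (by positivity)]
    rw [h5, h6]
    refine Real.sqrt_le_sqrt ?_
    unfold q
    rw [← mul_div_assoc, le_div_iff₀ hll0]
    calc K ^ 2 * Real.log (Real.log T) * Real.log (Real.log T) = (K * Real.log (Real.log T)) ^ 2 := by ring
      _ ≤ _ := a3
  obtain ⟨T₁, hT₁⟩ := Filter.eventually_atTop.1 hev
  refine ⟨c / 2 / Real.pi, max T₀ T₁, by positivity, fun T hT σ hσ => ?_⟩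
  obtain ⟨hT16, hll, hLH, hLC, hllC, hKc⟩ := hT₁ T ((le_max_right _ _).trans hT)
  obtain ⟨L, hL⟩ : ∃ L : ℝ, L = Real.log T := ⟨_, rfl⟩
  obtain ⟨ll, hlld⟩ : ∃ ll : ℝ, ll = Real.log L := ⟨_, rfl⟩
  obtain ⟨Q, hQ⟩ : ∃ Q : ℝ, Q = q T := ⟨_, rfl⟩
  have hQ' : Q = L / ll := by rw [hQ, hlld, hL]; rfl
  have hzn : ‖((σ * (c * Real.sqrt (q T)) : ℝ) : ℂ) * I‖ = c * Real.sqrt (q T) := by
    rw [norm_mul, norm_I, mul_one, norm_real, Real.norm_eq_abs, abs_mul, hσ, one_mul, abs_of_nonneg (mul_nonneg hc.le (Real.sqrt_nonneg _))]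
  have h2 := h1 T ((le_max_left _ _).trans hT) (((σ * (c * Real.sqrt (q T)) : ℝ) : ℂ) * I) hzn.le
  rw [hzn] at h2
  have hzi : (((σ * (c * Real.sqrt (q T)) : ℝ) : ℂ) * I).im = σ * (c * Real.sqrt (q T)) := by simp
  set E : Set ℝ := {t : ℝ | (T + 2 * Real.log T < t ∧ t ≤ 2 * T - 2 * Real.log T) ∧
    good (1 / 4) H d K T (((σ * (c * Real.sqrt (q T)) : ℝ) : ℂ) * I) t} with hE
  have hT0 : 0 < T := by linarith
  set Γ : Set ℂ := extreme σ (c / 2 / Real.pi * Real.sqrt (q T)) T with hΓ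
  have hΓf : Γ.Finite := extreme_finite _ _ T hT0
  have hσ2 : σ * σ = 1 := by
    have := abs_mul_abs_self σ
    rw [hσ, one_mul] at this
    exact this.symm
  -- every point of `E` is near a zero of `Γ`
  have hnear : ∀ t ∈ E, ∃ s ∈ Γ, |s.im - t| ≤ H / Real.log T := by
    rintro t ⟨⟨t1, t2⟩, g1, g2, g3, g4, g5⟩
    have hsim : 3 ≤ simple (d / Real.log T) t (H / Real.log T) := by
      have h3 : (0.6725 : ℝ) ≤ A := by
        have h : H370.cMTinv ≤ 1.3275 := Pool.Agent.W354.ZP.cMTinv_sharp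
        rw [A_eq]
        norm_num at h ⊢
        linarith
      have h4 : 3 / 4 * (H / Real.pi) ≤ all t (H / Real.log T) := by
        have := (abs_le.1 g4).1
        linarith
      have h5 : 25 ≤ H / Real.pi := by
        rw [le_div_iff₀ hpi]
        linarith [Real.pi_lt_four]
      have h6 : (0.4225 : ℝ) * (3 / 4 * 25) ≤ (A - 1 / 4) * all t (H / Real.log T) :=
        mul_le_mul (by norm_num at h3 ⊢; linarith) (by linarith) (by norm_num) (by linarith)
      have h7 : (3 : ℝ) ≤ simple (d / Real.log T) t (H / Real.log T) := by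
        norm_num at h6
        linarith
      exact_mod_cast h7
    obtain ⟨s, hs, hs1, hs2, hs3⟩ := interior hsim
    have hs4 := abs_lt.1 hs3
    have hr1 : H / Real.log T ≤ 1 := by
      rw [div_le_one (by linarith)]
      linarith
    refine ⟨s, ⟨hs.1, hs1, hs2, by linarith [hs4.1], by linarith [hs4.2], ?_⟩, hs3.le⟩
    have hopen : ∀ᶠ v in 𝓝 s.im, |v - t| < H / Real.log T := by
      have hc' : ContinuousAt (fun v : ℝ => |v - t|) s.im := by fun_prop
      exact hc'.eventually_lt_const hs3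
    filter_upwards [hopen] with v hv hvo
    have h8 := g3 v hv.le hvo
    rw [hzi] at h8
    have h9 : |σ * (Real.pi * S v - σ * (c * Real.sqrt (q T)))| ≤ K * Real.sqrt (Real.log (Real.log T)) := by
      rw [abs_mul, hσ, one_mul]
      exact h8
    have h10 := (abs_le.1 h9).1
    have h11 : σ * (Real.pi * S v - σ * (c * Real.sqrt (q T))) = Real.pi * (σ * S v) - c * Real.sqrt (q T) := by
      calc σ * (Real.pi * S v - σ * (c * Real.sqrt (q T))) = Real.pi * (σ * S v) - (σ * σ) * (c * Real.sqrt (q T)) := by ring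
        _ = _ := by rw [hσ2, one_mul]
    rw [h11] at h10
    have h12 : c / 2 * Real.sqrt (q T) ≤ Real.pi * (σ * S v) := by linarith
    rw [div_mul_eq_mul_div, div_le_iff₀ hpi]
    linarith
  -- the measure of `E` is bounded by the number of zeros
  have hvol : volume.real E ≤ (Γ.ncard : ℝ) * (2 * (H / Real.log T)) := by
    have h3 : E ⊆ ⋃ s ∈ hΓf.toFinset, Set.Icc (s.im - H / Real.log T) (s.im + H / Real.log T) := by
      intro t ht
      obtain ⟨s, hs, hs1⟩ := hnear t ht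
      rw [Set.mem_iUnion₂]
      have := abs_le.1 hs1
      exact ⟨s, hΓf.mem_toFinset.2 hs, by linarith [this.2], by linarith [this.1]⟩
    have hr0 : 0 ≤ H / Real.log T := div_nonneg (by linarith) (by linarith)
    have h4 : volume E ≤ ENNReal.ofReal ((Γ.ncard : ℝ) * (2 * (H / Real.log T))) := by
      refine (measure_mono h3).trans ((measure_biUnion_finset_le _ _).trans ?_)
      have h5 : ∀ s : ℂ, volume (Set.Icc (s.im - H / Real.log T) (s.im + H / Real.log T)) = ENNReal.ofReal (2 * (H / Real.log T)) := by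
        intro s
        rw [Real.volume_Icc]
        congr 1
        ring
      simp only [h5]
      rw [Finset.sum_const, nsmul_eq_mul, ← Set.ncard_eq_toFinset_card Γ hΓf, ENNReal.ofReal_mul (Nat.cast_nonneg _), ENNReal.ofReal_natCast]
    rw [measureReal_def]
    refine (ENNReal.toReal_mono ENNReal.ofReal_ne_top h4).trans (le_of_eq ?_)
    rw [ENNReal.toReal_ofReal (by positivity)]
  -- the final count
  rw [← hL] at hLH hLC hllC hll h2 hvol
  rw [← hlld] at hllC hll h2
  have hL0 : 0 < L := by linarith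
  have hll0 : 0 < ll := by linarith
  have hexpo : C * (1 + (c * Real.sqrt (q T)) ^ 2 / Real.log (2 + L / ((1 + (c * Real.sqrt (q T)) ^ 2) * ll))) ≤ ε * L := by
    have h3 : (c * Real.sqrt (q T)) ^ 2 = c ^ 2 * (L / ll) := by
      rw [mul_pow, ← hQ, hQ', Real.sq_sqrt (by positivity)]
    have h4 : Real.log 2 ≤ Real.log (2 + L / ((1 + (c * Real.sqrt (q T)) ^ 2) * ll)) := by
      refine Real.log_le_log (by norm_num) ?_
      have : 0 ≤ L / ((1 + (c * Real.sqrt (q T)) ^ 2) * ll) := by positivity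
      linarith
    have h5 : (c * Real.sqrt (q T)) ^ 2 / Real.log (2 + L / ((1 + (c * Real.sqrt (q T)) ^ 2) * ll)) ≤ c ^ 2 * (L / ll) / Real.log 2 := by
      rw [h3] at h4 ⊢
      exact div_le_div_of_nonneg_left (by positivity) hl2 h4
    have h6 : C * (c ^ 2 * (L / ll) / Real.log 2) ≤ ε / 2 * L := by
      rw [div_le_iff₀ (by positivity)] at hllC
      have h7 : C * (c ^ 2 * (L / ll) / Real.log 2) = (2 * C * c ^ 2) * L / (2 * ll * Real.log 2) := by
        field_simp
      rw [h7, div_le_iff₀ (by positivity)]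
      have := mul_le_mul_of_nonneg_right hllC hL0.le
      linarith [show ε / 2 * L * (2 * ll * Real.log 2) = ll * (ε * Real.log 2) * L by ring]
    have h8 : C ≤ ε / 2 * L := by
      rw [div_le_iff₀ hε] at hLC
      linarith
    have h9 := mul_le_mul_of_nonneg_left h5 hC.le
    linarith
  have h3 : T ^ (1 - ε) = T * Real.exp (-(ε * L)) := by
    rw [Real.rpow_sub hT0, Real.rpow_one, Real.rpow_def_of_pos hT0, ← hL, Real.exp_neg, mul_comm L ε]
    rfl
  have h4 : T ^ (1 - ε) ≤ volume.real E := by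
    rw [h3]
    refine le_trans ?_ h2
    exact mul_le_mul_of_nonneg_left (Real.exp_le_exp.2 (by linarith)) hT0.le
  have h5 : 2 * (H / L) ≤ 1 := by
    rw [← mul_div_assoc, div_le_one hL0]
    exact hLH
  have h6 : (Γ.ncard : ℝ) * (2 * (H / L)) ≤ Γ.ncard * 1 := mul_le_mul_of_nonneg_left h5 (Nat.cast_nonneg _)
  linarith

/-- **Simple zeros of Hardy's function at every size of `log ζ` and at the extreme values of `S`.** -/
theorem result :
    (∀ ε : ℝ, 0 < ε → ∃ H₀ : ℝ, ∀ H : ℝ, H₀ ≤ H → ∃ d c K C T₀ : ℝ, 0 < d ∧ 0 < c ∧ 0 < K ∧ 0 < C ∧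
      ∀ T : ℝ, T₀ ≤ T → ∀ z : ℂ, ‖z‖ ≤ c * Real.sqrt (q T) →
        T * Real.exp (-(C * (1 + ‖z‖ ^ 2 / Real.log (2 + Real.log T / ((1 + ‖z‖ ^ 2) * Real.log (Real.log T)))))) ≤
          volume.real {t : ℝ | T < t ∧ t ≤ 2 * T ∧ ¬ IsOrd t ∧ ‖logZeta t - z‖ ≤ K * Real.sqrt (Real.log (Real.log T)) ∧
            (∀ u : ℝ, |u - t| ≤ H / Real.log T → ¬ IsOrd u → |Real.pi * S u - z.im| ≤ K * Real.sqrt (Real.log (Real.log T))) ∧
            |(all t (H / Real.log T) : ℝ) - H / Real.pi| ≤ ε * (H / Real.pi) ∧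
            (A - ε) * all t (H / Real.log T) ≤ simple (d / Real.log T) t (H / Real.log T)}) ∧
    (∀ ε : ℝ, 0 < ε → ∃ c T₀ : ℝ, 0 < c ∧ ∀ T : ℝ, T₀ ≤ T → ∀ σ : ℝ, |σ| = 1 →
      T ^ (1 - ε) ≤ ((extreme σ (c * Real.sqrt (q T)) T).ncard : ℝ)) := by
  refine ⟨fun ε hε => ?_, part2⟩
  obtain ⟨H₀, -, h0⟩ := main ε hε
  refine ⟨H₀, fun H hH => ?_⟩
  obtain ⟨d, c, K, C, T₀, hd, hc, hK, hC, h1⟩ := h0 H hH
  refine ⟨d, c, K, C, max T₀ 1, hd, hc, hK, hC, fun T hT z hz => ?_⟩
  have hT1 : 1 ≤ T := (le_max_right _ _).trans hT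
  have hL : 0 ≤ Real.log T := Real.log_nonneg hT1
  refine (h1 T ((le_max_left _ _).trans hT) z hz).trans ?_
  refine measureReal_mono ?_ ?_
  · rintro t ⟨⟨t1, t2⟩, g1, g2, g3, g4, g5⟩
    exact ⟨by linarith, by linarith, g1, g2, g3, g4, g5⟩
  · exact ((measure_mono (t := Set.Ioc T (2 * T)) (fun t ht => ⟨ht.1, ht.2.1⟩)).trans_lt (by
      rw [Real.volume_Ioc]; exact ENNReal.ofReal_lt_top)).ne

end

end Pool.Agent.Results.MP_6bc78b_nt.SimpleZerosAtEveryLevel
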